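import Pool.Agent.Helper58.DG.Goals

/-!
# Project DG, packet D_DIV: the pull-back of a top form is closed.
-/

set_option autoImplicit false

namespace Pool.Agent.Helper91.DG

open Pool.Agent.Helper58.DG Equiv
open scoped ContDiff

variable {m : ℕ}

/-- An alternating sum over the permutations with a summand invariant under a transposition. -/
theorem alt_zero (l : Fin m) (H : Perm (Fin (m + 1)) → ℝ)
    (h : ∀ σ, H (σ * swap 0 l.succ) = H σ) :
    ∑ σ : Perm (Fin (m + 1)), ((Perm.sign σ : ℤ) : ℝ) * H σ = 0 := by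
  have hs : Perm.sign (swap (0 : Fin (m + 1)) l.succ) = -1 :=
    Perm.sign_swap (Fin.succ_ne_zero l).symm
  have h1 : ∑ σ : Perm (Fin (m + 1)), ((Perm.sign σ : ℤ) : ℝ) * H σ =
      ∑ σ : Perm (Fin (m + 1)), ((Perm.sign (σ * swap 0 l.succ) : ℤ) : ℝ) *
        H (σ * swap 0 l.succ) :=
    (_root_.Equiv.sum_comp (Equiv.mulRight (swap (0 : Fin (m + 1)) l.succ))
      (fun σ : Perm (Fin (m + 1)) ↦ ((Perm.sign σ : ℤ) : ℝ) * H σ)).symm
  have h2 : ∑ σ : Perm (Fin (m + 1)), ((Perm.sign (σ * swap 0 l.succ) : ℤ) : ℝ) *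
        H (σ * swap 0 l.succ) = -∑ σ : Perm (Fin (m + 1)), ((Perm.sign σ : ℤ) : ℝ) * H σ := by
    rw [← Finset.sum_neg_distrib]
    refine Finset.sum_congr rfl fun σ _ ↦ ?_
    rw [h, Perm.sign_mul, hs]
    push_cast
    ring
  linarith

/-- The matrix of the partial derivatives. -/
noncomputable def AA (Φ : (Fin (m + 1) → ℝ) → Fin m → ℝ) (y : Fin (m + 1) → ℝ) (k : Fin m)
    (c : Fin (m + 1)) : ℝ := pd (fun w ↦ Φ w k) c y

theorem det_expand (Φ : (Fin (m + 1) → ℝ) → Fin m → ℝ) (y : Fin (m + 1) → ℝ)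
    (i : Fin (m + 1)) :
    (-1) ^ (i : ℕ) * (Matrix.of fun k j : Fin m ↦ AA Φ y k (i.succAbove j)).det =
      ∑ σ : Perm (Fin (m + 1)), ((Perm.sign σ : ℤ) : ℝ) *
        ((if σ 0 = i then 1 else 0) * ∏ k : Fin m, AA Φ y k (σ k.succ)) := by
  set N : Matrix (Fin (m + 1)) (Fin (m + 1)) ℝ :=
    Matrix.of (Fin.cons (Pi.single i (1 : ℝ)) (fun k ↦ AA Φ y k)) with hN
  have h0 : ∀ j, N 0 j = if j = i then 1 else 0 := by
    intro j
    rw [hN, Matrix.of_apply, Fin.cons_zero, Pi.single_apply]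
  have hs : ∀ k j, N (Fin.succ k) j = AA Φ y k j := by
    intro k j
    rw [hN, Matrix.of_apply, Fin.cons_succ]
  have h1 : N.det = (-1) ^ (i : ℕ) * (Matrix.of fun k j : Fin m ↦ AA Φ y k (i.succAbove j)).det := by
    rw [Matrix.det_succ_row_zero, Finset.sum_eq_single i]
    · rw [h0, if_pos rfl, mul_one]
      congr 2
    · intro j _ hj
      rw [h0, if_neg hj, mul_zero, zero_mul]
    · intro h
      exact absurd (Finset.mem_univ i) h
  rw [← h1, ← Matrix.det_transpose, Matrix.det_apply']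
  refine Finset.sum_congr rfl fun σ _ ↦ ?_
  congr 1
  rw [Fin.prod_univ_succ]
  simp only [Matrix.transpose_apply, h0, hs]

theorem diff_A {Φ : (Fin (m + 1) → ℝ) → Fin m → ℝ} (hΦ : ContDiff ℝ ∞ Φ) (k : Fin m)
    (c : Fin (m + 1)) : ContDiff ℝ ∞ fun y ↦ AA Φ y k c := by
  have h1 : ContDiff ℝ ∞ fun w ↦ Φ w k := (contDiff_pi.1 hΦ) k
  have h2 : ContDiff ℝ ∞ (fderiv ℝ fun w ↦ Φ w k) := h1.fderiv_right (by simp)
  exact h2.clm_apply contDiff_const

theorem symm_A {Φ : (Fin (m + 1) → ℝ) → Fin m → ℝ} (hΦ : ContDiff ℝ ∞ Φ) (k : Fin m)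
    (c d : Fin (m + 1)) (z : Fin (m + 1) → ℝ) :
    pd (fun y ↦ AA Φ y k c) d z = pd (fun y ↦ AA Φ y k d) c z := by
  have h1 : ContDiff ℝ ∞ fun w ↦ Φ w k := (contDiff_pi.1 hΦ) k
  have h2 : ContDiff ℝ ∞ (fderiv ℝ fun w ↦ Φ w k) := h1.fderiv_right (by simp)
  have hd : DifferentiableAt ℝ (fderiv ℝ fun w ↦ Φ w k) z :=
    (h2.differentiable (by simp)) z
  have key : ∀ c d : Fin (m + 1), pd (fun y ↦ AA Φ y k c) d z =
      fderiv ℝ (fderiv ℝ fun w ↦ Φ w k) z (Pi.single d 1) (Pi.single c 1) := by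
    intro c d
    unfold pd AA pd
    rw [fderiv_clm_apply hd (differentiableAt_const _)]
    simp
  rw [key, key]
  have hsym : IsSymmSndFDerivAt ℝ (fun w ↦ Φ w k) z := by
    refine (h1.contDiffAt (x := z)).isSymmSndFDerivAt ?_
    rw [minSmoothness_of_isRCLikeNormedField]
    exact WithTop.coe_le_coe.2 (le_top : (2 : ℕ∞) ≤ ⊤)
  exact hsym _ _

theorem pd_mul {f g : (Fin (m + 1) → ℝ) → ℝ} (z : Fin (m + 1) → ℝ) (i : Fin (m + 1))
    (hf : DifferentiableAt ℝ f z) (hg : DifferentiableAt ℝ g z) :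
    pd (fun y ↦ f y * g y) i z = pd f i z * g z + f z * pd g i z := by
  unfold pd
  rw [fderiv_fun_mul hf hg]
  simp
  ring

theorem pd_comp {Φ : (Fin (m + 1) → ℝ) → Fin m → ℝ} {φ : (Fin m → ℝ) → ℝ}
    (hΦ : ContDiff ℝ ∞ Φ) (hφ : ContDiff ℝ ∞ φ) (z : Fin (m + 1) → ℝ) (i : Fin (m + 1)) :
    pd (fun y ↦ φ (Φ y)) i z = ∑ l : Fin m, fderiv ℝ φ (Φ z) (Pi.single l 1) * AA Φ z l i := by
  have hd : DifferentiableAt ℝ Φ z := (hΦ.differentiable (by simp)) z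
  have hd' : DifferentiableAt ℝ φ (Φ z) := (hφ.differentiable (by simp)) (Φ z)
  unfold pd
  have h1 : fderiv ℝ (fun y ↦ φ (Φ y)) z = (fderiv ℝ φ (Φ z)).comp (fderiv ℝ Φ z) :=
    fderiv_comp z hd' hd
  rw [h1, ContinuousLinearMap.comp_apply]
  have h2 : fderiv ℝ Φ z (Pi.single i 1) = ∑ l : Fin m, AA Φ z l i • (Pi.single l (1 : ℝ)) := by
    ext k
    rw [Finset.sum_apply]
    simp only [Pi.smul_apply, Pi.single_apply, smul_eq_mul, mul_ite, mul_one, mul_zero,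
      Finset.sum_ite_eq, Finset.mem_univ, if_true]
    unfold AA pd
    have h3 : HasFDerivAt (fun w ↦ Φ w k) ((ContinuousLinearMap.proj k).comp (fderiv ℝ Φ z)) z :=
      (hasFDerivAt_pi'.1 hd.hasFDerivAt) k
    rw [h3.fderiv]
    rfl
  rw [h2, map_sum]
  refine Finset.sum_congr rfl fun l _ ↦ ?_
  rw [map_smul, smul_eq_mul, mul_comm]

theorem pd_prod {Φ : (Fin (m + 1) → ℝ) → Fin m → ℝ} (hΦ : ContDiff ℝ ∞ Φ)
    (c : Fin m → Fin (m + 1)) (z : Fin (m + 1) → ℝ) (i : Fin (m + 1)) :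
    pd (fun y ↦ ∏ k : Fin m, AA Φ y k (c k)) i z =
      ∑ l : Fin m, (∏ k ∈ Finset.univ.erase l, AA Φ z k (c k)) *
        pd (fun y ↦ AA Φ y l (c l)) i z := by
  unfold pd
  have h := HasFDerivAt.finsetProd (u := Finset.univ) (g := fun k y ↦ AA Φ y k (c k)) (x := z)
    (g' := fun k ↦ fderiv ℝ (fun y ↦ AA Φ y k (c k)) z)
    (fun k _ ↦ (((diff_A hΦ k (c k)).differentiable (by simp)) z).hasFDerivAt)
  have e : (fun y ↦ ∏ k : Fin m, AA Φ y k (c k)) =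
      fun y ↦ ∏ k ∈ Finset.univ, (fun k y ↦ AA Φ y k (c k)) k y := rfl
  rw [e, h.fderiv]
  simp

theorem d_div : D_DIV := by
  intro m Φ φ hΦ hφ z
  have hT : ∀ σ : Perm (Fin (m + 1)), ContDiff ℝ ∞ fun y ↦ ∏ k : Fin m, AA Φ y k (σ k.succ) :=
    fun σ ↦ contDiff_prod fun k _ ↦ diff_A hΦ k _
  have hφΦ : ContDiff ℝ ∞ fun y ↦ φ (Φ y) := hφ.comp hΦ
  have hφd : DifferentiableAt ℝ (fun y ↦ φ (Φ y)) z := (hφΦ.differentiable (by simp)) z
  have hTd : ∀ σ : Perm (Fin (m + 1)),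
      DifferentiableAt ℝ (fun y ↦ ∏ k : Fin m, AA Φ y k (σ k.succ)) z :=
    fun σ ↦ ((hT σ).differentiable (by simp)) z
  -- the expansion of each summand
  have h1 : ∀ i : Fin (m + 1), pd (fun y ↦ (-1) ^ (i : ℕ) * φ (Φ y) *
      (Matrix.of fun k j : Fin m ↦ pd (fun w ↦ Φ w k) (i.succAbove j) y).det) i z =
      ∑ σ : Perm (Fin (m + 1)), ((Perm.sign σ : ℤ) : ℝ) * (if σ 0 = i then 1 else 0) *
        pd (fun y ↦ φ (Φ y) * ∏ k : Fin m, AA Φ y k (σ k.succ)) i z := by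
    intro i
    have e1 : (fun y ↦ (-1) ^ (i : ℕ) * φ (Φ y) *
        (Matrix.of fun k j : Fin m ↦ pd (fun w ↦ Φ w k) (i.succAbove j) y).det) =
        fun y ↦ ∑ σ : Perm (Fin (m + 1)), (((Perm.sign σ : ℤ) : ℝ) * (if σ 0 = i then 1 else 0)) *
          (φ (Φ y) * ∏ k : Fin m, AA Φ y k (σ k.succ)) := by
      funext y
      have := det_expand Φ y i
      calc (-1) ^ (i : ℕ) * φ (Φ y) *
            (Matrix.of fun k j : Fin m ↦ pd (fun w ↦ Φ w k) (i.succAbove j) y).det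
          = φ (Φ y) * ((-1) ^ (i : ℕ) *
            (Matrix.of fun k j : Fin m ↦ AA Φ y k (i.succAbove j)).det) := by
              unfold AA; ring
        _ = _ := by
          rw [this, Finset.mul_sum]
          refine Finset.sum_congr rfl fun σ _ ↦ ?_
          ring
    rw [e1]
    unfold pd
    have hm : ∀ σ : Perm (Fin (m + 1)), DifferentiableAt ℝ
        (fun y ↦ φ (Φ y) * ∏ k : Fin m, AA Φ y k (σ k.succ)) z := fun σ ↦ hφd.fun_mul (hTd σ)
    rw [fderiv_fun_sum (fun σ _ ↦ (hm σ).const_mul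
      (((Perm.sign σ : ℤ) : ℝ) * (if σ 0 = i then 1 else 0)))]
    rw [sum_apply]
    refine Finset.sum_congr rfl fun σ _ ↦ ?_
    rw [fderiv_const_mul (hm σ)]
    rfl
  simp only [h1]
  rw [Finset.sum_comm]
  have h2 : ∀ σ : Perm (Fin (m + 1)), ∑ i : Fin (m + 1),
      ((Perm.sign σ : ℤ) : ℝ) * (if σ 0 = i then 1 else 0) *
        pd (fun y ↦ φ (Φ y) * ∏ k : Fin m, AA Φ y k (σ k.succ)) i z =
      ∑ l : Fin m, ((Perm.sign σ : ℤ) : ℝ) * (
        (fderiv ℝ φ (Φ z) (Pi.single l 1) * AA Φ z l (σ 0) * ∏ k : Fin m, AA Φ z k (σ k.succ)) +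
        φ (Φ z) * ((∏ k ∈ Finset.univ.erase l, AA Φ z k (σ k.succ)) *
          pd (fun y ↦ AA Φ y l (σ l.succ)) (σ 0) z)) := by
    intro σ
    rw [Finset.sum_eq_single (σ 0)]
    · rw [if_pos rfl, mul_one, pd_mul z (σ 0) hφd (hTd σ), pd_comp hΦ hφ,
        pd_prod hΦ (fun k ↦ σ k.succ), Finset.sum_mul, Finset.mul_sum, ← Finset.sum_add_distrib,
        Finset.mul_sum]
    · intro i _ hi
      rw [if_neg (Ne.symm hi), mul_zero, zero_mul]
    · intro h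
      exact absurd (Finset.mem_univ _) h
  simp only [h2]
  rw [Finset.sum_comm]
  refine Finset.sum_eq_zero fun l _ ↦ ?_
  refine alt_zero l _ fun σ ↦ ?_
  have hs0 : (σ * swap 0 l.succ) 0 = σ l.succ := by
    rw [Perm.mul_apply, swap_apply_left]
  have hsl : (σ * swap 0 l.succ) l.succ = σ 0 := by
    rw [Perm.mul_apply, swap_apply_right]
  have hsk : ∀ k : Fin m, k ≠ l → (σ * swap 0 l.succ) k.succ = σ k.succ := by
    intro k hk
    rw [Perm.mul_apply, swap_apply_of_ne_of_ne (Fin.succ_ne_zero k)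
      (fun h ↦ hk (Fin.succ_injective _ h))]
  have hprod : ∏ k ∈ Finset.univ.erase l, AA Φ z k ((σ * swap 0 l.succ) k.succ) =
      ∏ k ∈ Finset.univ.erase l, AA Φ z k (σ k.succ) :=
    Finset.prod_congr rfl fun k hk ↦ by rw [hsk k (Finset.ne_of_mem_erase hk)]
  have hfull : ∀ τ : Perm (Fin (m + 1)), ∏ k : Fin m, AA Φ z k (τ k.succ) =
      AA Φ z l (τ l.succ) * ∏ k ∈ Finset.univ.erase l, AA Φ z k (τ k.succ) :=
    fun τ ↦ (Finset.mul_prod_erase _ _ (Finset.mem_univ l)).symm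
  rw [hfull, hfull σ, hprod, hs0, hsl, symm_A hΦ l (σ 0) (σ l.succ) z]
  ring

end Pool.Agent.Helper91.DG
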